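import Pool.Agent.J6H90.SF.Stm
import Pool.Agent.J6H90.WT.Cmp

/-!
# Project SF: own part
-/

set_option autoImplicit false

open Matrix Polynomial

namespace Pool.Agent.J6H90.SF

/-- a squarefree polynomial whose roots contain the `M`-th powers of the roots of `q` and `c` -/
theorem exists_p {k : Type} [Field k] {q : k[X]} (hq : Squarefree q) (M : ℕ) (c : k) :
    ∃ p : k[X], Squarefree p ∧ q ∣ expand k M p ∧ p.eval c = 0 := by
  have hq0 : q ≠ 0 := hq.ne_zero
  have hred : IsReduced (AdjoinRoot q) := by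
    have h1 : IsRadical q := isRadical_iff_squarefree_or_zero.2 (Or.inl hq)
    exact (Ideal.isRadical_iff_quotient_reduced _).1 (isRadical_iff_span_singleton.1 h1)
  have hfin : Module.Finite k (AdjoinRoot q) := (AdjoinRoot.powerBasis hq0).finite
  set x : AdjoinRoot q := AdjoinRoot.root q with hx
  set r : k[X] := minpoly k (x ^ M) with hr
  have hint : IsIntegral k (x ^ M) := Algebra.IsIntegral.isIntegral _
  have hr0 : r ≠ 0 := minpoly.ne_zero hint
  have hrx : aeval (x ^ M) r = 0 := minpoly.aeval k _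
  have hrs : Squarefree r := by
    intro a ha
    obtain ⟨b, hb⟩ := ha
    have ha0 : a ≠ 0 := by
      rintro rfl
      apply hr0
      rw [hb]
      ring
    have hb0 : b ≠ 0 := by
      rintro rfl
      apply hr0
      rw [hb]
      ring
    have h1 : aeval (x ^ M) (a * b) = 0 := by
      have h2 : aeval (x ^ M) (a * b) ^ 2 = 0 := by
        rw [← map_pow]
        have h3 : (a * b) ^ 2 = r * b := by
          rw [hb]
          ring
        rw [h3, map_mul, hrx, zero_mul]
      exact pow_eq_zero_iff (two_ne_zero) |>.1 h2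
    have h2 : r ∣ a * b := minpoly.dvd k _ h1
    obtain ⟨d, hd⟩ := h2
    have h3 : a * b * 1 = a * b * (a * d) := by
      rw [mul_one]
      calc a * b = r * d := hd
        _ = a * a * b * d := by rw [hb]
        _ = a * b * (a * d) := by ring
    have h4 := mul_left_cancel₀ (mul_ne_zero ha0 hb0) h3
    exact IsUnit.of_mul_eq_one _ h4.symm
  have hqr : q ∣ expand k M r := by
    rw [← AdjoinRoot.mk_eq_zero, ← AdjoinRoot.aeval_eq, expand_aeval]
    exact hrx
  by_cases hc : r.eval c = 0
  · exact ⟨r, hrs, hqr, hc⟩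
  · refine ⟨r * (X - C c), ?_, ?_, ?_⟩
    · have hcop : IsCoprime r (X - C c) := by
        rw [isCoprime_comm]
        refine (Polynomial.irreducible_X_sub_C c).coprime_iff_not_dvd.2 ?_
        rw [dvd_iff_isRoot]
        exact hc
      exact (squarefree_mul_iff).2 ⟨hcop.isRelPrime, hrs, (Polynomial.irreducible_X_sub_C c).squarefree⟩
    · rw [map_mul]
      exact hqr.mul_right _
    · rw [eval_mul, eval_sub, eval_X, eval_C, sub_self, mul_zero]

section

variable {k G : Type} [Field k] [Group G] {n m : ℕ} (V : G →* Matrix (Fin n) (Fin n) k)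
  (W : G →* Matrix (Fin m) (Fin m) k)

theorem aeval_mem_span (s : G) (p : k[X]) :
    aeval (V s) p ∈ Submodule.span k (Set.range V) := by
  induction p using Polynomial.induction_on' with
  | add p q hp hq =>
    rw [map_add]
    exact Submodule.add_mem _ hp hq
  | monomial i a =>
    rw [aeval_monomial, Algebra.algebraMap_eq_smul_one, smul_mul_assoc, one_mul, ← map_pow]
    exact Submodule.smul_mem _ _ (Submodule.subset_span ⟨s ^ i, rfl⟩)

theorem tr_poly' (c : G →* k) (U : Subgroup G)
    (hT : ∀ x ∈ U, ∀ y, (V (x * y)).trace - (W (x * y)).trace =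
      c x * ((V y).trace - (W y).trace)) {s : G} (hs : s ∈ U) (y : G) (p : k[X]) :
    (aeval (V s) p * V y).trace - (aeval (W s) p * W y).trace =
      p.eval (c s) * ((V y).trace - (W y).trace) := by
  induction p using Polynomial.induction_on' with
  | add p q hp hq =>
    rw [map_add, map_add, add_mul, add_mul, Matrix.trace_add, Matrix.trace_add, eval_add, add_mul,
      ← hp, ← hq]
    ring
  | monomial i a =>
    have h1 : ∀ (r : ℕ) (ρ : G →* Matrix (Fin r) (Fin r) k),
        (aeval (ρ s) (monomial i a) * ρ y).trace = a * (ρ (s ^ i * y)).trace := by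
      intro r ρ
      rw [aeval_monomial, Algebra.algebraMap_eq_smul_one, smul_mul_assoc, one_mul, smul_mul_assoc,
        Matrix.trace_smul, smul_eq_mul, map_mul, map_pow]
    rw [h1, h1, ← mul_sub, hT _ (U.pow_mem hs i), eval_monomial, map_pow]
    ring

/-- **The main step.** -/
theorem main (hloewy : S_LOEWY) (hroot : S_ROOT) [CharZero k] (c : G →* k) (U : Subgroup G)
    (hT : ∀ x ∈ U, ∀ y, (V (x * y)).trace - (W (x * y)).trace =
      c x * ((V y).trace - (W y).trace)) {g : G} {M : ℕ} (hM : 0 < M) (hg : g ^ M ∈ U)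
    {q : k[X]} (hq : Squarefree q) {b : ℕ} (hb : 0 < b) (hqW : aeval (W g) q ^ b = 0) {h : ℕ}
    {S : ℕ → Submodule k (Fin n → k)} (hS : Loewy V h S) :
    ∃ q' : k[X], Squarefree q' ∧ aeval (V g) q' ^ (b * h) = 0 := by
  obtain ⟨p, hp, hqp, hpc⟩ := exists_p hq M (c (g ^ M))
  have hW0 : aeval (W (g ^ M)) (p ^ b) = 0 := by
    obtain ⟨d, hd⟩ := hqp
    rw [map_pow, map_pow, ← expand_aeval, hd, map_mul]
    have hcomm : Commute (aeval (W g) q) (aeval (W g) d) := by
      rw [Commute, SemiconjBy, ← map_mul, ← map_mul, mul_comm]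
    rw [hcomm.mul_pow, hqW, zero_mul]
  have hpc' : (p ^ b).eval (c (g ^ M)) = 0 := by
    rw [eval_pow, hpc, zero_pow (by omega)]
  have h1 : ∀ y, (aeval (V (g ^ M)) (p ^ b) * V y).trace = 0 := by
    intro y
    have h2 := tr_poly' V W c U hT hg y (p ^ b)
    rw [hW0, hpc', zero_mul, zero_mul, Matrix.trace_zero, sub_zero] at h2
    exact h2
  have h2 := hloewy k G n h V S hS _ (aeval_mem_span V (g ^ M) (p ^ b)) h1
  refine hroot k n (b * h) M (V g) p hM ?_ hp ?_
  · refine ⟨⟨V g, V g⁻¹, ?_, ?_⟩, rfl⟩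
    · rw [← map_mul, mul_inv_cancel, map_one]
    · rw [← map_mul, inv_mul_cancel, map_one]
  · rw [pow_mul, ← map_pow V, ← map_pow]
    exact h2

end

end Pool.Agent.J6H90.SF
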