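import Pool.Agent.J6H90.SF.Stm
import Pool.Agent.TH658.Eq.Newt

/-!
# SF-LOEWY: the radical of the trace form and Loewy filtrations
-/

set_option autoImplicit false
set_option maxHeartbeats 400000

open Matrix Polynomial

namespace Pool.Agent.J6H90.SF

section loewy

variable {k G : Type} [Field k] [Group G] {n : ℕ}

/-- a matrix whose powers have trace zero is nilpotent -/
theorem nilp_tr [CharZero k] {A : Matrix (Fin n) (Fin n) k}
    (h : ∀ j : ℕ, (A ^ (j + 1)).trace = 0) : A ^ n = 0 := by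
  have h1 : A.charpoly = (0 : Matrix (Fin n) (Fin n) k).charpoly := by
    apply Pool.Agent.TH658.Eq.charpoly_eq_of_traces
    intro j
    rcases j with _ | j
    · rw [pow_zero, pow_zero]
    · rw [h j, zero_pow (Nat.succ_ne_zero j), Matrix.trace_zero]
  have h2 := A.aeval_self_charpoly
  rw [h1] at h2
  have h3 : (0 : Matrix (Fin n) (Fin n) k).charpoly = X ^ n := by
    rw [Matrix.charpoly_zero, Fintype.card_fin]
  rw [h3, map_pow, aeval_X] at h2
  exact h2

/-- the algebra spanned by the representation -/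
def sp (ρ : G →* Matrix (Fin n) (Fin n) k) : Submodule k (Matrix (Fin n) (Fin n) k) :=
  Submodule.span k (Set.range ρ)

theorem sp_of (ρ : G →* Matrix (Fin n) (Fin n) k) (g : G) : ρ g ∈ sp ρ :=
  Submodule.subset_span ⟨g, rfl⟩

theorem sp_mul {ρ : G →* Matrix (Fin n) (Fin n) k} {a b : Matrix (Fin n) (Fin n) k}
    (ha : a ∈ sp ρ) (hb : b ∈ sp ρ) : a * b ∈ sp ρ := by
  have h1 : ∀ g, ∀ b ∈ sp ρ, ρ g * b ∈ sp ρ := by
    intro g b hb
    unfold sp at hb
    induction hb using Submodule.span_induction with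
    | mem y hy =>
      obtain ⟨g', rfl⟩ := hy
      rw [← map_mul]
      exact sp_of ρ _
    | zero => rw [mul_zero]; exact Submodule.zero_mem _
    | add x y _ _ hx hy => rw [mul_add]; exact Submodule.add_mem _ hx hy
    | smul c x _ hx => rw [mul_smul_comm]; exact Submodule.smul_mem _ _ hx
  unfold sp at ha
  induction ha using Submodule.span_induction with
  | mem x hx =>
    obtain ⟨g, rfl⟩ := hx
    exact h1 g b hb
  | zero => rw [zero_mul]; exact Submodule.zero_mem _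
  | add x y _ _ hx hy => rw [add_mul]; exact Submodule.add_mem _ hx hy
  | smul c x _ hx => rw [smul_mul_assoc]; exact Submodule.smul_mem _ _ hx

theorem sp_pow {ρ : G →* Matrix (Fin n) (Fin n) k} {a : Matrix (Fin n) (Fin n) k}
    (ha : a ∈ sp ρ) (j : ℕ) : a ^ j ∈ sp ρ := by
  induction j with
  | zero =>
    rw [pow_zero, ← map_one ρ]
    exact sp_of ρ _
  | succ j ih =>
    rw [pow_succ]
    exact sp_mul ih ha

theorem sp_stable {ρ : G →* Matrix (Fin n) (Fin n) k} {T : Submodule k (Fin n → k)}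
    (hT : Stable ρ T) {a : Matrix (Fin n) (Fin n) k} (ha : a ∈ sp ρ) {x : Fin n → k}
    (hx : x ∈ T) : a *ᵥ x ∈ T := by
  unfold sp at ha
  induction ha using Submodule.span_induction with
  | mem y hy =>
    obtain ⟨g, rfl⟩ := hy
    exact hT g x hx
  | zero => rw [zero_mulVec]; exact Submodule.zero_mem _
  | add y z _ _ hy hz => rw [add_mulVec]; exact Submodule.add_mem _ hy hz
  | smul c y _ hy => rw [smul_mulVec]; exact Submodule.smul_mem _ _ hy

/-- the radical of the trace form -/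
def rad (ρ : G →* Matrix (Fin n) (Fin n) k) : Submodule k (Matrix (Fin n) (Fin n) k) where
  carrier := {z | z ∈ sp ρ ∧ ∀ b ∈ sp ρ, (z * b).trace = 0}
  add_mem' := by
    rintro a b ⟨ha, ha'⟩ ⟨hb, hb'⟩
    refine ⟨Submodule.add_mem _ ha hb, fun c hc => ?_⟩
    rw [add_mul, Matrix.trace_add, ha' c hc, hb' c hc, add_zero]
  zero_mem' := by
    refine ⟨Submodule.zero_mem _, fun c _ => ?_⟩
    rw [zero_mul, Matrix.trace_zero]
  smul_mem' := by
    rintro c a ⟨ha, ha'⟩
    refine ⟨Submodule.smul_mem _ _ ha, fun b hb => ?_⟩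
    rw [smul_mul_assoc, Matrix.trace_smul, ha' b hb, smul_zero]

theorem rad_mul {ρ : G →* Matrix (Fin n) (Fin n) k} {z a : Matrix (Fin n) (Fin n) k}
    (hz : z ∈ rad ρ) (ha : a ∈ sp ρ) : a * z ∈ rad ρ := by
  refine ⟨sp_mul ha hz.1, fun b hb => ?_⟩
  rw [mul_assoc, Matrix.trace_mul_comm, mul_assoc]
  exact hz.2 _ (sp_mul hb ha)

theorem rad_nil [CharZero k] {ρ : G →* Matrix (Fin n) (Fin n) k} {z : Matrix (Fin n) (Fin n) k}
    (hz : z ∈ rad ρ) : z ^ n = 0 := nilp_tr fun j => by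
  rw [pow_succ']
  exact hz.2 _ (sp_pow hz.1 j)

theorem exists_max [CharZero k] (ρ : G →* Matrix (Fin n) (Fin n) k)
    {W U₀ : Submodule k (Fin n → k)} (hW : Stable ρ W) (hU₀ : Stable ρ U₀) (hlt : U₀ < W) :
    ∃ U, Stable ρ U ∧ U₀ ≤ U ∧ U < W ∧ ∀ z ∈ rad ρ, ∀ x ∈ W, z *ᵥ x ∈ U := by
  obtain ⟨U, ⟨hU1, hU2, hU3⟩, hmax⟩ : ∃ U, (Stable ρ U ∧ U₀ ≤ U ∧ U < W) ∧
      ∀ U', (Stable ρ U' ∧ U₀ ≤ U' ∧ U' < W) → ¬ U < U' := by
    obtain ⟨U, hU, h⟩ := WellFounded.has_min
      (wellFounded_gt (α := Submodule k (Fin n → k)))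
      {U | Stable ρ U ∧ U₀ ≤ U ∧ U < W} ⟨U₀, hU₀, le_rfl, hlt⟩
    exact ⟨U, hU, fun U' h' => h U' h'⟩
  refine ⟨U, hU1, hU2, hU3, fun z hz x hx => ?_⟩
  by_contra hcon
  let L : Submodule k (Fin n → k) :=
    { carrier := {y | ∃ z ∈ rad ρ, z *ᵥ x = y}
      add_mem' := by
        rintro _ _ ⟨a, ha, rfl⟩ ⟨b, hb, rfl⟩
        exact ⟨a + b, Submodule.add_mem _ ha hb, add_mulVec _ _ _⟩
      zero_mem' := ⟨0, Submodule.zero_mem _, zero_mulVec _⟩
      smul_mem' := by
        rintro c _ ⟨a, ha, rfl⟩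
        exact ⟨c • a, Submodule.smul_mem _ _ ha, smul_mulVec _ _ _⟩ }
  have hs : Stable ρ (U ⊔ L) := by
    intro g y hy
    obtain ⟨u, hu, v, hv, rfl⟩ := Submodule.mem_sup.1 hy
    obtain ⟨z', hz', rfl⟩ := hv
    rw [mulVec_add]
    refine Submodule.add_mem_sup (hU1 g u hu) ?_
    exact ⟨ρ g * z', rad_mul hz' (sp_of ρ g), (mulVec_mulVec _ _ _).symm⟩
  have h1 : U < U ⊔ L := by
    refine lt_of_le_of_ne le_sup_left fun h => hcon ?_
    rw [h]
    exact Submodule.mem_sup_right ⟨z, hz, rfl⟩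
  have h2 : U ⊔ L ≤ W := by
    refine sup_le hU3.le ?_
    rintro _ ⟨z', hz', rfl⟩
    exact sp_stable hW hz'.1 hx
  have h3 : U ⊔ L = W := by
    by_contra hne
    exact hmax _ ⟨hs, hU2.trans le_sup_left, lt_of_le_of_ne h2 hne⟩ h1
  have hx' : x ∈ U ⊔ L := by
    rw [h3]
    exact hx
  obtain ⟨u, hu, y, ⟨z', hz', rfl⟩, hxy⟩ := Submodule.mem_sup.1 hx'
  have h4 : ∀ j : ℕ, x - (z' ^ j) *ᵥ x ∈ U := by
    intro j
    induction j with
    | zero =>
      rw [pow_zero, one_mulVec, sub_self]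
      exact Submodule.zero_mem _
    | succ j ih =>
      have h5 : x - (z' ^ (j + 1)) *ᵥ x = u + z' *ᵥ (x - (z' ^ j) *ᵥ x) := by
        calc x - (z' ^ (j + 1)) *ᵥ x = (u + z' *ᵥ x) - z' *ᵥ ((z' ^ j) *ᵥ x) := by
              rw [hxy, mulVec_mulVec, ← pow_succ']
          _ = u + z' *ᵥ (x - (z' ^ j) *ᵥ x) := by
              rw [mulVec_sub]
              abel
      rw [h5]
      exact U.add_mem hu (sp_stable hU1 hz'.1 ih)
  have h5 := h4 n
  rw [rad_nil hz', zero_mulVec, sub_zero] at h5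
  exact hcon (sp_stable hU1 hz.1 h5)

theorem rad_step [CharZero k] (ρ : G →* Matrix (Fin n) (Fin n) k) {h : ℕ}
    {S : ℕ → Submodule k (Fin n → k)} (hS : Loewy ρ h S) {i : ℕ} (hi : i < h)
    {z : Matrix (Fin n) (Fin n) k} (hz : z ∈ rad ρ) {x : Fin n → k} (hx : x ∈ S (i + 1)) :
    z *ᵥ x ∈ S i := by
  let R : Submodule k (Fin n → k) :=
    Submodule.span k {y | ∃ z ∈ rad ρ, ∃ x ∈ S (i + 1), z *ᵥ x = y}
  have hRs : Stable ρ R := by
    intro g y hy
    induction hy using Submodule.span_induction with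
    | mem y hy =>
      obtain ⟨z', hz', x', hx', rfl⟩ := hy
      exact Submodule.subset_span ⟨ρ g * z', rad_mul hz' (sp_of ρ g), x', hx',
        (mulVec_mulVec _ _ _).symm⟩
    | zero => rw [mulVec_zero]; exact Submodule.zero_mem _
    | add x y _ _ hx hy => rw [mulVec_add]; exact Submodule.add_mem _ hx hy
    | smul c x _ hx => rw [mulVec_smul]; exact Submodule.smul_mem _ _ hx
  have hTs : Stable ρ (S i ⊔ R) := by
    intro g y hy
    obtain ⟨u, hu, v, hv, rfl⟩ := Submodule.mem_sup.1 hy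
    rw [mulVec_add]
    exact Submodule.add_mem_sup (hS.stable i hi.le g u hu) (hRs g v hv)
  have hTle : S i ⊔ R ≤ S (i + 1) := by
    refine sup_le (hS.mono i hi) (Submodule.span_le.2 ?_)
    rintro _ ⟨z', hz', x', hx', rfl⟩
    exact sp_stable (hS.stable (i + 1) hi) hz'.1 hx'
  obtain ⟨T', h1, h2, h3, h4, h5⟩ := hS.compl i hi _ hTs le_sup_left hTle
  by_cases hT' : T' = S (i + 1)
  · have h6 : S i ⊔ R ≤ S i := by
      conv_rhs => rw [← h4, hT']
      exact le_inf le_rfl hTle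
    exact h6 (Submodule.mem_sup_right (Submodule.subset_span ⟨z, hz, x, hx, rfl⟩))
  · obtain ⟨U, hU1, hU2, hU3, hU4⟩ :=
      exists_max ρ (hS.stable (i + 1) hi) h1 (lt_of_le_of_ne h3 hT')
    exfalso
    have h6 : S i ⊔ R ≤ U := by
      refine sup_le (h2.trans hU2) (Submodule.span_le.2 ?_)
      rintro _ ⟨z', hz', x', hx', rfl⟩
      exact hU4 z' hz' x' hx'
    have h7 : S (i + 1) ≤ U := by
      rw [← h5]
      exact sup_le h6 hU2
    exact absurd hU3 (not_lt_of_ge h7)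

end loewy

/-- **SF-LOEWY.** -/
theorem loewy : S_LOEWY := by
  intro k G _ _ _ n h ρ S hS z hz htr
  have hzr : z ∈ rad ρ := by
    refine ⟨hz, fun b hb => ?_⟩
    unfold sp at hb
    induction hb using Submodule.span_induction with
    | mem y hy =>
      obtain ⟨g, rfl⟩ := hy
      exact htr g
    | zero => rw [mul_zero, Matrix.trace_zero]
    | add x y _ _ hx hy => rw [mul_add, Matrix.trace_add, hx, hy, add_zero]
    | smul c x _ hx => rw [mul_smul_comm, Matrix.trace_smul, hx, smul_zero]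
  have key : ∀ j ≤ h, ∀ x : Fin n → k, (z ^ j) *ᵥ x ∈ S (h - j) := by
    intro j
    induction j with
    | zero =>
      intro _ x
      rw [Nat.sub_zero, hS.top]
      exact Submodule.mem_top
    | succ j ih =>
      intro hj x
      have h1 := ih (by omega) x
      rw [pow_succ', ← mulVec_mulVec]
      apply rad_step ρ hS (by omega) hzr
      have h2 : h - (j + 1) + 1 = h - j := by omega
      rw [h2]
      exact h1
  ext i j
  have h1 := key h le_rfl (Pi.single j 1)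
  rw [Nat.sub_self, hS.bot, Submodule.mem_bot, mulVec_single_one] at h1
  exact congrFun h1 i

end Pool.Agent.J6H90.SF
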