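import Pool.Agent.J6H90.SF.Stm

/-! # Project SF (helper90), module ROOT (helper42): squarefree polynomials and `M`-th powers -/

set_option autoImplicit false

open Matrix Polynomial

namespace Pool.Agent.J6H90.SF

lemma root_coprime {k : Type} [Field k] (q : k[X]) (h : q.coeff 0 ≠ 0) : IsCoprime q X := by
  refine IsCoprime.symm ?_
  rw [Polynomial.irreducible_X.coprime_iff_not_dvd, Polynomial.X_dvd_iff]
  exact h

lemma root_expand {k : Type} [Field k] [CharZero k] (M : ℕ) (hM : 0 < M) (p : k[X])
    (hp : Squarefree p) (h0 : p.coeff 0 ≠ 0) : Squarefree (expand k M p) := by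
  have hsep : p.Separable := PerfectField.separable_iff_squarefree.mpr hp
  refine Polynomial.Separable.squarefree ?_
  rw [Polynomial.separable_def] at hsep ⊢
  rw [Polynomial.derivative_expand]
  refine IsCoprime.mul_right ?_ ?_
  · exact hsep.map (expand k M).toRingHom
  · refine IsCoprime.mul_right ?_ ?_
    · have hu : IsUnit ((M : k[X])) := by
        rw [← Polynomial.C_eq_natCast]
        exact Polynomial.isUnit_C.mpr (by
          rw [isUnit_iff_ne_zero]
          exact_mod_cast hM.ne')
      obtain ⟨u, hu'⟩ := hu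
      exact ⟨0, ((u⁻¹ : (k[X])ˣ) : k[X]), by rw [zero_mul, zero_add, ← hu', Units.inv_mul]⟩
    · refine IsCoprime.pow_right (root_coprime _ ?_)
      rw [Polynomial.coeff_zero_eq_eval_zero, Polynomial.expand_eval, zero_pow hM.ne',
        ← Polynomial.coeff_zero_eq_eval_zero]
      exact h0

/-- **ROOT** -/
theorem root : S_ROOT := by
  intro k _ _ n h M A p hM hA hp hz
  have key : ∀ p' : k[X], Squarefree p' → p'.coeff 0 ≠ 0 → aeval (A ^ M) p' ^ h = 0 →
      ∃ q : k[X], Squarefree q ∧ aeval A q ^ h = 0 := by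
    intro p' h1 h2 h3
    refine ⟨expand k M p', root_expand M hM p' h1 h2, ?_⟩
    rw [Polynomial.expand_aeval]
    exact h3
  by_cases h0 : p.coeff 0 = 0
  · obtain ⟨p', rfl⟩ := Polynomial.X_dvd_iff.mpr h0
    refine key p' (hp.squarefree_of_dvd (dvd_mul_left _ _)) ?_ ?_
    · intro h1
      obtain ⟨r, rfl⟩ := Polynomial.X_dvd_iff.mpr h1
      have h2 : X * X ∣ X * (X * r) := ⟨r, by ring⟩
      exact Polynomial.not_isUnit_X (hp X h2)
    · rw [map_mul, aeval_X] at hz
      have hc : Commute (A ^ M) (aeval (A ^ M) p') := by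
        have := (Polynomial.commute_X p').map (aeval (A ^ M))
        simpa using this
      rw [hc.mul_pow] at hz
      exact ((hA.pow M).pow h).mul_right_eq_zero.mp hz
  · exact key p hp h0 hz

end Pool.Agent.J6H90.SF
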