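import Pool.Agent.J6H90.SF.Stm

/-!
# Project SF, module SQF
-/

set_option autoImplicit false

open Matrix Polynomial

namespace Pool.Agent.J6H90.SF

theorem sqf : S_SQF := by
  intro k _ _ m M B c hB
  obtain ⟨f, hf⟩ : ∃ f : Module.End k (Fin m → k), f = Matrix.toLinAlgEquiv' B := ⟨_, rfl⟩
  have h1 : aeval f (minpoly k B) = 0 := by
    rw [hf, Polynomial.aeval_algHom_apply]
    simp
  have h2 : f.IsSemisimple := Module.End.isSemisimple_of_squarefree_aeval_eq_zero hB h1
  have h3 : (f ^ M).IsSemisimple := h2.pow M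
  obtain ⟨r, hr⟩ : ∃ r, r = minpoly k (f ^ M) := ⟨_, rfl⟩
  have h4 : Squarefree r := by
    rw [hr]
    exact h3.minpoly_squarefree
  have h5 : aeval (B ^ M) r = 0 := by
    have h6 : aeval (f ^ M) r = 0 := by
      rw [hr]
      exact minpoly.aeval _ _
    have h7 : f ^ M = Matrix.toLinAlgEquiv' (B ^ M) := by
      rw [hf, map_pow]
    rw [h7, Polynomial.aeval_algHom_apply] at h6
    exact (Matrix.toLinAlgEquiv' (R := k)).injective (h6.trans (map_zero _).symm)
  by_cases hc : r.eval c = 0
  · exact ⟨r, h4, h5, hc⟩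
  · refine ⟨r * (X - C c), ?_, ?_, ?_⟩
    · rw [squarefree_mul_iff]
      refine ⟨?_, h4, (irreducible_X_sub_C c).squarefree⟩
      have : IsCoprime (X - C c) r := by
        rw [(irreducible_X_sub_C c).coprime_iff_not_dvd, dvd_iff_isRoot]
        exact hc
      exact this.symm.isRelPrime
    · rw [map_mul, h5, zero_mul]
    · simp

end Pool.Agent.J6H90.SF
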