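import Mathlib

/-!
# Project SF (MP_93fb11_ag): transfer of the semisimplicity of Frobenius

Every `S_...` below is one module (`theorem xxx : S_XXX`).  Pure algebra over Mathlib.
-/

set_option autoImplicit false

open Matrix Polynomial

namespace Pool.Agent.J6H90.SF

/-- `T` is stable under `ρ` -/
def Stable {k G : Type} [Field k] [Group G] {n : ℕ} (ρ : G →* Matrix (Fin n) (Fin n) k)
    (T : Submodule k (Fin n → k)) : Prop := ∀ g, ∀ x ∈ T, ρ g *ᵥ x ∈ T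

/-- `S 0 = ⊥, S 1, ..., S h = ⊤` is a filtration by stable subspaces with semisimple quotients -/
structure Loewy {k G : Type} [Field k] [Group G] {n : ℕ} (ρ : G →* Matrix (Fin n) (Fin n) k) (h : ℕ)
    (S : ℕ → Submodule k (Fin n → k)) : Prop where
  bot : S 0 = ⊥
  top : S h = ⊤
  mono : ∀ i < h, S i ≤ S (i + 1)
  stable : ∀ i ≤ h, Stable ρ (S i)
  compl : ∀ i < h, ∀ T, Stable ρ T → S i ≤ T → T ≤ S (i + 1) →
    ∃ T', Stable ρ T' ∧ S i ≤ T' ∧ T' ≤ S (i + 1) ∧ T ⊓ T' = S i ∧ T ⊔ T' = S (i + 1)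

/-- LOEWY.  Proof: let `𝒜` be the span of the `ρ g` (a subalgebra) and
`R = {z ∈ 𝒜 | tr (z b) = 0 for all b ∈ 𝒜}`, a two sided ideal of `𝒜` all of whose elements are
nilpotent (`tr z ^ i = 0` for `i ≥ 1`; e.g. `Pool.Agent.R401.Tr3.nilp_of_trace` for `1 + z`).  So `R` is
contained in the Jacobson radical of `𝒜` and is nilpotent (`𝒜` is Artinian).  Claim:
`R S_(i+1) ⊆ S_i`.  `T = S_i + R S_(i+1)` is stable; let `T'` be as in `compl`.  `R T' ⊆ T' ⊓ T = S_i`, so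
`R S_(i+1) = R (T + T') ⊆ R T + S_i`, so `T ⊆ S_i + R T ⊆ S_i + R (S_i + R T) ⊆ S_i + R ^ 2 T ⊆ ...`, and
`T ⊆ S_i`.  So `z ^ h` maps `S_h = ⊤` to `S_0 = ⊥`. -/
def S_LOEWY : Prop := ∀ (k G : Type) [Field k] [CharZero k] [Group G] (n h : ℕ)
  (ρ : G →* Matrix (Fin n) (Fin n) k) (S : ℕ → Submodule k (Fin n → k)), Loewy ρ h S →
  ∀ z ∈ Submodule.span k (Set.range ρ), (∀ g, (z * ρ g).trace = 0) → z ^ h = 0

/-- ROOT.  Proof: `p = X ^ i p'`, `i ≤ 1`, `p'(0) ≠ 0` (`p` is squarefree); `p'(A ^ M) ^ h = 0` since `A`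
is invertible; `q = p'(X ^ M)` (`expand`): `p'` is separable, so is `q`
(`q' = M X ^ (M - 1) p''(X ^ M)`, coprime to `q` since `p''(X ^ M)` and `X` are). -/
def S_ROOT : Prop := ∀ (k : Type) [Field k] [CharZero k] (n h M : ℕ)
  (A : Matrix (Fin n) (Fin n) k) (p : k[X]), 0 < M → IsUnit A → Squarefree p →
  aeval (A ^ M) p ^ h = 0 → ∃ q : k[X], Squarefree q ∧ aeval A q ^ h = 0

/-- SQF.  Proof: `B` is semisimple (`Module.End.IsSemisimple`, perfect field), so is `B ^ M`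
(`IsSemisimple.pow`), so its minimal polynomial `r` is squarefree; `p` = `r` or `r (X - c)`. -/
def S_SQF : Prop := ∀ (k : Type) [Field k] [CharZero k] (m M : ℕ)
  (B : Matrix (Fin m) (Fin m) k) (c : k), Squarefree (minpoly k B) →
  ∃ p : k[X], Squarefree p ∧ aeval (B ^ M) p = 0 ∧ p.eval c = 0

end Pool.Agent.J6H90.SF
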